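import Pool.Agent.H545R3.FanFinal

/-! # Smooth endpoint-homogeneous fans with equal EPG sets: a counterexample

The conjecture that a smooth endpoint-homogeneous `X`-EPG fan (`X` nonempty) is determined up to
homeomorphism by `X` is false, already for the three-point set `X = {0, 1/3, 2/3}`: there are two
such fans in the plane that are not homeomorphic (in one of them the second derived set of the set
of endpoints is contained in the one-point set of the top, in the other it is not).

The definitions (`IsArc`, `IsSubcontinuum`, `HereditarilyUnicoherent`, `IsRamification`, `IsFan`,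
`IsEndpoint`, `IsSeg`, `IsSmooth`, `EndpointHomogeneous`, `IsEPG`) are in
`Pool/Agent/H545R3/FanDefs.lean`. -/

set_option autoImplicit false

open Set Topology Filter Pool.Agent.H545R3.Fan

namespace Pool.Agent.Results.MP_56c207_gt.TwoFans

/-- The set `{0, 1/3, 2/3} ⊆ [0,1]`. -/
def thirds : Set unitInterval := {t | (t : ℝ) = 0 ∨ (t : ℝ) = 1 / 3 ∨ (t : ℝ) = 2 / 3}

lemma thirds_eq : thirds = Z3 := by
  ext t
  constructor
  · rintro (h | h | h)
    · exact Or.inl (Subtype.ext h)
    · exact Or.inr (Or.inl (Subtype.ext h))
    · exact Or.inr (Or.inr (Subtype.ext h))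
  · rintro (h | h | h)
    · left; rw [h]
    · right; left; rw [h]
    · right; right; rw [h]

/-- There are two non-homeomorphic smooth endpoint-homogeneous fans (subspaces of the plane) that
are both `X`-EPG for the nonempty set `X = {0, 1/3, 2/3}`. -/
theorem result : thirds.Nonempty ∧ ∃ (F G : Set (ℝ × ℝ)) (tF : F) (tG : G),
    IsFan F tF ∧ IsFan G tG ∧ IsSmooth tF ∧ IsSmooth tG ∧
    EndpointHomogeneous F ∧ EndpointHomogeneous G ∧ IsEPG tF thirds ∧ IsEPG tG thirds ∧
    ¬ Nonempty (F ≃ₜ G) := by
  rw [thirds_eq]
  exact ⟨⟨_, Or.inl rfl⟩, Fan (KK psi1), Fan (KK psi2), top (good wt1), top (good wt2),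
    isFan _, isFan _, isSmooth _, isSmooth _, endpointHomogeneous wt1, endpointHomogeneous wt2,
    isEPG wt1, isEPG wt2, not_homeo⟩

end Pool.Agent.Results.MP_56c207_gt.TwoFans
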